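import Pool.Agent.LPW.StmtsF

/-!
# Squad LPW, row NM1: the norms in a one-parameter family
-/

set_option autoImplicit false

open Polynomial NumberField
open Pool.Agent.Helper85_Leo (LeopoldtAt)
open Pool.Agent.LUB (FullRank sp spr Exceptional Fam MainStmt SphStmt SpfStmt BndStmt DepStmt)

namespace Pool.Agent.LPW.H86

theorem mem_deg {a : ℕ} {x : ℤ[X]} :
    x ∈ (Polynomial.degreeLE ℤ (a : WithBot ℕ)).toAddSubgroup ↔ x.natDegree ≤ a := by
  rw [Submodule.mem_toAddSubgroup, Polynomial.mem_degreeLE, Polynomial.natDegree_le_iff_degree_le]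

theorem nm1 : Nm1Stmt := by
  intro hC hU hN n D f w hm hn hfD hw hwD hcard
  obtain ⟨g, -, -, hg3, hg4, hg5⟩ := hC ℤ[X]
    (fun a => (Polynomial.degreeLE ℤ (a : WithBot ℕ)).toAddSubgroup)
    (by
      intro a b hab x hx
      rw [mem_deg] at hx ⊢
      exact le_trans hx hab)
    (by
      rw [mem_deg, Polynomial.natDegree_one])
    (by
      intro a b x y hx hy
      rw [mem_deg] at hx hy ⊢
      exact le_trans Polynomial.natDegree_mul_le (Nat.add_le_add hx hy))
    n D f w hm hn
    (by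
      intro j
      rw [mem_deg]
      exact hfD j)
    hw
    (by
      intro j
      rw [mem_deg]
      exact hwD j)
  have hdeg : (g.coeff 0).natDegree ≤ n * (D + D * D) := mem_deg.1 (hg3 0)
  refine hU _ f w g hg4 ?_
  by_contra hne
  have hP : g.coeff 0 ^ 2 - 1 ≠ 0 := sub_ne_zero.2 hne
  have hPd : (g.coeff 0 ^ 2 - 1).natDegree ≤ 2 * (n * (D + D * D)) := by
    refine le_trans (Polynomial.natDegree_sub_le _ _) (max_le ?_ ?_)
    · exact le_trans Polynomial.natDegree_pow_le (Nat.mul_le_mul_left 2 hdeg)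
    · rw [Polynomial.natDegree_one]
      exact Nat.zero_le _
  have hsub : {t : ℤ | ∃ (K : Type) (_ : Field K) (_ : NumberField K) (θ : 𝓞 K),
      aeval θ (sp f t) = 0 ∧ IntermediateField.adjoin ℚ {(θ : K)} = ⊤ ∧ Module.finrank ℚ K = n ∧
      IsUnit (aeval θ (sp w t))} ⊆ ((g.coeff 0 ^ 2 - 1).roots.toFinset : Set ℤ) := by
    intro t ht
    obtain ⟨K, hK1, hK2, θ, h1, h2, h3, h4⟩ := ht
    obtain ⟨ψ, hψ⟩ : ∃ ψ : ℤ[X] →+* ℤ, ψ = evalRingHom t := ⟨_, rfl⟩
    have hψe : ∀ a, ψ a = Polynomial.eval t a := by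
      intro a
      rw [hψ]
      rfl
    have hs : ∀ h : ℤ[X][X], sp h t = h.map ψ := by
      intro h
      rw [hψ]
      rfl
    have hsq : (ψ (g.coeff 0)) ^ 2 = 1 := by
      refine hN n (sp f t) (sp w t) _ ?_ ?_ ?_ ⟨K, hK1, hK2, θ, h1, h2, h3, h4⟩
      · rw [hs]
        exact hm.map ψ
      · rw [hs, hm.natDegree_map ψ, hn]
      · intro θ' hθ hinj
        rw [hs, Polynomial.map_map] at hθ
        have h5 := hg5 ℂ ((Int.castRingHom ℂ).comp ψ) θ' hinj hθ
        have h6 := congrArg (Polynomial.eval 0) h5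
        rw [← Polynomial.coeff_zero_eq_eval_zero, Polynomial.coeff_map, Polynomial.eval_prod]
          at h6
        have h7 : ∏ j, Polynomial.eval 0 (X - C ((Polynomial.map ((Int.castRingHom ℂ).comp ψ)
            w).eval (θ' j))) = (-1) ^ n * ∏ j, ((sp w t).map
              (Int.castRingHom ℂ)).eval (θ' j) := by
          rw [hs, Polynomial.map_map]
          have : (-1 : ℂ) ^ n = ∏ _j : Fin n, (-1 : ℂ) := by
            rw [Finset.prod_const, Finset.card_univ, Fintype.card_fin]
          rw [this, ← Finset.prod_mul_distrib]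
          refine Finset.prod_congr rfl fun j _ => ?_
          rw [Polynomial.eval_sub, Polynomial.eval_X, Polynomial.eval_C]
          ring
        rw [h7] at h6
        have h8 : ((ψ (g.coeff 0) : ℤ) : ℂ) = (-1) ^ n * ∏ j, ((sp w t).map
              (Int.castRingHom ℂ)).eval (θ' j) := h6
        rcases neg_one_pow_eq_or ℂ n with h9 | h9
        · left
          rw [h8, h9, one_mul]
        · right
          rw [h8, h9, neg_one_mul]
    rw [Finset.mem_coe, Multiset.mem_toFinset, Polynomial.mem_roots hP, Polynomial.IsRoot.def,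
      ← hψe, map_sub, map_pow, map_one, hsq, sub_self]
  have h1 := lt_of_lt_of_le hcard (Set.encard_le_encard hsub)
  rw [Set.encard_coe_eq_coe_finsetCard, Nat.cast_lt] at h1
  have h2 : (g.coeff 0 ^ 2 - 1).roots.toFinset.card ≤ 2 * (n * (D + D * D)) :=
    le_trans (Multiset.toFinset_card_le _) (le_trans (Polynomial.card_roots' _) hPd)
  omega

end Pool.Agent.LPW.H86
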